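import Mathlib
import Pool.Agent.H3.SymB

set_option autoImplicit false
open Set Filter Equiv Topology Pool.Agent.H3.Sym

namespace Pool.Agent.Results.MP_8d0ff6_al.Four

/-- Finitary permutations: those moving finitely many points. -/
def FSym : Subgroup (Equiv.Perm ℤ) where
  carrier := {g | {x | g x ≠ x}.Finite}
  one_mem' := by simp
  mul_mem' := fun {a b} ha hb => (ha.union hb).subset fun x hx => by
    by_contra h
    simp only [mem_union, mem_setOf_eq, not_or, not_not] at h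
    exact hx (by rw [Perm.mul_apply, h.2, h.1])
  inv_mem' := fun {a} ha => ha.subset fun x hx h => hx (inv_fix h)

/-- Finitary even permutations: products of an even number of transpositions. -/
def Alt : Subgroup (Equiv.Perm ℤ) :=
  Subgroup.closure {g | ∃ s t : Equiv.Perm ℤ, s.IsSwap ∧ t.IsSwap ∧ g = s * t}

lemma swap_fin (x y : ℤ) : swap x y ∈ FSym :=
  (toFinite ({x, y} : Set ℤ)).subset fun z hz => by
    by_contra h
    simp only [mem_insert_iff, mem_singleton_iff, not_or] at h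
    exact hz (swap_apply_of_ne_of_ne h.1 h.2)

lemma Alt_le : Alt ≤ FSym := (Subgroup.closure_le _).2 (by
  rintro _ ⟨_, _, ⟨a, b, -, rfl⟩, ⟨c, d, -, rfl⟩, rfl⟩
  exact mul_mem (swap_fin _ _) (swap_fin _ _))

lemma FSym_eq {g : G} (hg : g ∈ FSym) : g ∈ Subgroup.closure {σ : G | σ.IsSwap} :=
  mem_closure_isSwap'.2 hg

lemma Alt_conj {s g : G} (hs : s.IsSwap) (hg : g ∈ Alt) : s * g * s ∈ Alt := by
  have h2 : s * s = 1 := by obtain ⟨a, b, -, rfl⟩ := hs; simp
  induction hg using Subgroup.closure_induction with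
  | mem x hx =>
    obtain ⟨a, b, ha, hb, rfl⟩ := hx
    rw [show s * (a * b) * s = (s * a) * (b * s) by group]
    exact mul_mem (Subgroup.subset_closure ⟨_, _, hs, ha, rfl⟩)
      (Subgroup.subset_closure ⟨_, _, hb, hs, rfl⟩)
  | one => rw [mul_one, h2]; exact one_mem _
  | mul x y _ _ hx hy =>
    have := mul_mem hx hy
    rwa [show s * x * s * (s * y * s) = s * x * (s * s) * y * s by group, h2, mul_one,
      mul_assoc s x y] at this
  | inv x _ hx =>
    have h3 : s⁻¹ = s := inv_eq_of_mul_eq_one_right h2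
    have := inv_mem hx
    rwa [mul_inv_rev, mul_inv_rev, h3, ← mul_assoc] at this

lemma parity {g : G} (hg : g ∈ FSym) : g ∈ Alt ∨ ∀ t : G, t.IsSwap → t * g ∈ Alt := by
  refine Subgroup.closure_induction_left (p := fun g _ => g ∈ Alt ∨ ∀ t : G, t.IsSwap → t * g ∈ Alt)
    (Or.inl (one_mem _)) ?_ ?_ (FSym_eq hg)
  · rintro x hx y - (h | h)
    · refine Or.inr fun t ht => ?_
      rw [← mul_assoc]
      exact mul_mem (Subgroup.subset_closure ⟨_, _, ht, hx, rfl⟩) h
    · exact Or.inl (h x hx)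
  · rintro _ ⟨a, b, hab, rfl⟩ y - (h | h)
    · refine Or.inr fun t ht => ?_
      rw [← mul_assoc, swap_inv]
      exact mul_mem (Subgroup.subset_closure ⟨_, _, ht, ⟨a, b, hab, rfl⟩, rfl⟩) h
    · rw [swap_inv]
      exact Or.inl (h _ ⟨a, b, hab, rfl⟩)

lemma three {x y z a b c : ℤ} (h1 : x ≠ y) (h2 : y ≠ z) (h3 : x ≠ z) (k1 : a ≠ b) (k2 : b ≠ c)
    (k3 : a ≠ c) : ∃ k : G, k x = a ∧ k y = b ∧ k z = c := by
  obtain ⟨k, hk⟩ := ext (fun w => if w = x then a else if w = y then b else c) {x, y, z} (by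
      rintro u (rfl | rfl | rfl) v (rfl | rfl | rfl) h <;> simp_all [eq_comm])
    (toFinite _).infinite_compl (toFinite _).infinite_compl
  refine ⟨k, by simpa using hk x, by simpa [h1.symm] using hk y, by simpa [h2.symm, h3.symm] using hk z⟩

variable [TopologicalSpace G] [IsTopologicalGroup G] [T2Space G] [FirstCountableTopology G]

omit [IsTopologicalGroup G] [T2Space G] in
lemma seq_of {S T : Set G} (hS : S ∉ 𝓝 (1 : G)) (hT : T ∈ 𝓝 (1 : G)) :
    ∃ g : ℕ → G, Tendsto g atTop (𝓝 1) ∧ ∀ n, g n ∈ T ∧ g n ∉ S := by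
  obtain ⟨V, hV⟩ := (𝓝 (1 : G)).exists_antitone_basis
  have : ∀ n, ∃ g ∈ V n, g ∈ T ∧ g ∉ S := fun n => by
    by_contra h
    refine hS (mem_of_superset (inter_mem (hV.mem n) hT) fun g hg => by_contra fun h' =>
      h ⟨g, hg.1, hg.2, h'⟩)
  choose g h1 h2 using this
  exact ⟨g, hV.tendsto h1, h2⟩

omit [FirstCountableTopology G] in
lemma basis_of {N : Subgroup G} (hN : (N : Set G) ∈ 𝓝 (1 : G))
    (h : ∀ g : ℕ → G, (∀ n, g n ∈ N) → PN g → Tendsto g atTop (𝓝 1)) :
    (𝓝 (1 : G)).HasBasis (fun _ : Finset ℤ => True) (fun F => {g | g ∈ N ∧ ∀ x ∈ F, g x = x}) := by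
  refine ⟨fun U => ⟨fun hU => ?_, fun ⟨F, _, hF⟩ => mem_of_superset
    (inter_mem hN ((eventually_all_finset F).2 fun x _ => stab_nhds x)) hF⟩⟩
  by_contra hc
  have : ∀ n : ℕ, ∃ g : G, (g ∈ N ∧ ∀ x ∈ Finset.Icc (-(n : ℤ)) n, g x = x) ∧ g ∉ U := fun n => by
    by_contra h'
    exact hc ⟨_, trivial, fun g hg => by_contra fun h'' => h' ⟨g, hg, h''⟩⟩
  choose g h1 h2 using this
  obtain ⟨n, hn⟩ := ((h g (fun n => (h1 n).1) fun x => by
    filter_upwards [eventually_ge_atTop x.natAbs] with n hn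
    exact (h1 n).2 x (Finset.mem_Icc.2 (by omega))).eventually hU).exists
  exact h2 n hn

omit [FirstCountableTopology G] in
lemma Alt_Q {g : ℕ → G} (hg : Tendsto g atTop (𝓝 1)) (h1 : ∀ n, g n ∈ FSym) (h2 : ∀ n, g n ≠ 1) :
    Alt ≤ QQ := by
  choose a ha using fun n => (show ∃ x, g n x ≠ x from by_contra fun h => h2 n
    (Equiv.ext fun x => by_contra fun h' => h ⟨x, h'⟩))
  choose y hy1 hy2 using fun n : ℕ => (Ici_infinite (n : ℤ)).exists_notMem_finite (h1 n)
  have hy3 : ∀ n, g n (y n) = y n := fun n => not_not.1 (hy2 n)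
  have hPN := PN_of hg
  have b1 := glue (k := fun n => swap (a n) (y n)) hg h1 fun x => by
    filter_upwards [hPN x, eventually_gt_atTop x.toNat] with n e1 e2
    have c1 : x ≠ a n := by rintro rfl; exact ha n e1
    have c2 : x ≠ y n := by have : (n : ℤ) ≤ y n := hy1 n; omega
    simp [swap_apply_of_ne_of_ne c1 c2, e1]
  have b2 : Tendsto (fun n => swap (g n (a n)) (y n) * swap (y n) (a n)) atTop (𝓝 1) := by
    refine (by simpa only [inv_one, mul_one] using hg.mul b1.inv :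
      Tendsto (fun n => g n * (swap (a n) (y n) * g n * (swap (a n) (y n))⁻¹)⁻¹) atTop (𝓝 1)).congr
      fun n => ?_
    conv_rhs => rw [← hy3 n, swap_apply_apply, hy3 n, swap_comm (y n) (a n)]
    simp [mul_assoc]
  have key : ∀ u v w : ℤ, u ≠ v → v ≠ w → swap u v * swap v w ∈ QQ := by
    intro u v w huv hvw
    by_cases huw : u = w
    · rw [huw, swap_comm, swap_mul_self]; exact one_mem _
    · choose j j1 j2 j3 using fun n => three huv hvw huw (a := g n (a n)) (b := y n) (c := a n)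
        (fun h => ha n (by
          have := (g n).injective (h.trans (hy3 n).symm)
          rw [h, this])) (fun h => ha n (h ▸ hy3 n)) (ha n)
      refine Q_of (j := j) (mul_mem (swap_fin u v) (swap_fin v w) : _ ∈ FSym) (b2.congr fun n => ?_)
      rw [← j1, ← j2, ← j3, swap_apply_apply, swap_apply_apply]; group
  refine (Subgroup.closure_le _).2 ?_
  rintro _ ⟨_, _, ⟨a, b, hab, rfl⟩, ⟨c, d, hcd, rfl⟩, rfl⟩
  by_cases hbc : b = c
  · subst hbc; exact key _ _ _ hab hcd
  · have := mul_mem (key _ _ _ hab hbc) (key _ _ _ hbc hcd)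
    rwa [mul_assoc, ← mul_assoc (swap b c), swap_mul_self, one_mul] at this

lemma FSym_Q {g : ℕ → G} (hg : Tendsto g atTop (𝓝 1)) (h1 : ∀ n, g n ∈ FSym)
    (h2 : ∀ n, g n ∉ Alt) : FSym ≤ QQ := by
  have hA := Alt_Q hg h1 fun n h => h2 n (h ▸ one_mem _)
  intro f hf
  refine (Subgroup.closure_le _).2 ?_ (FSym_eq hf)
  rintro _ ⟨a, b, hab, rfl⟩
  let j : ℕ → G := fun n => Equiv.addRight (n : ℤ)
  have hs : ∀ n, j n * swap a b * (j n)⁻¹ * g n ∈ Alt := fun n =>
    (parity (h1 n)).resolve_left (h2 n) _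
      ⟨_, _, (j n).injective.ne hab, (swap_apply_apply _ _ _).symm⟩
  have := fin_null (fun n => hA (hs n)) (fun n => Alt_le (hs n)) fun x => by
    filter_upwards [PN_of hg x, escape a x, escape b x] with n e1 e2 e3
    rw [← swap_apply_apply, Perm.mul_apply, e1, swap_apply_of_ne_of_ne e2.symm e3.symm]
  exact Q_of (j := j) (swap_fin a b) (by simpa using this.mul hg.inv)

omit [T2Space G] [FirstCountableTopology G] [TopologicalSpace G] [IsTopologicalGroup G] in
theorem result [TopologicalSpace (Equiv.Perm ℤ)] [IsTopologicalGroup (Equiv.Perm ℤ)]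
    [TopologicalSpace.MetrizableSpace (Equiv.Perm ℤ)] :
    ∃ N : Subgroup (Equiv.Perm ℤ), (N = ⊥ ∨ N = Alt ∨ N = FSym ∨ N = ⊤) ∧
      (𝓝 (1 : Equiv.Perm ℤ)).HasBasis (fun _ : Finset ℤ => True)
        (fun F => {g | g ∈ N ∧ ∀ x ∈ F, g x = x}) := by
  by_cases h1 : (FSym : Set G) ∈ 𝓝 (1 : G)
  · by_cases h2 : (Alt : Set G) ∈ 𝓝 (1 : G)
    · by_cases h3 : ((⊥ : Subgroup G) : Set G) ∈ 𝓝 (1 : G)
      · refine ⟨⊥, by simp, basis_of h3 fun g hg _ => ?_⟩
        exact tendsto_const_nhds.congr fun n => (Subgroup.mem_bot.1 (hg n)).symm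
      · obtain ⟨g, a1, a2⟩ := seq_of h3 h1
        have := Alt_Q a1 (fun n => (a2 n).1) fun n h => (a2 n).2 (Subgroup.mem_bot.2 h)
        exact ⟨Alt, by simp, basis_of h2 fun g hg =>
          fin_null (fun n => this (hg n)) fun n => Alt_le (hg n)⟩
    · obtain ⟨g, a1, a2⟩ := seq_of h2 h1
      have := FSym_Q a1 (fun n => (a2 n).1) fun n => (a2 n).2
      exact ⟨FSym, by simp, basis_of h1 fun g hg => fin_null (fun n => this (hg n)) hg⟩
  · obtain ⟨g, a1, a2⟩ := seq_of h1 univ_mem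
    exact ⟨⊤, by simp, basis_of (by simp) fun _ _ => inf_null a1 fun n => (a2 n).2⟩

end Pool.Agent.Results.MP_8d0ff6_al.Four
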